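import Pool.Agent.H73.GWT.Stmts

/-! Row RWB of board gwt: random words in blocks. -/

set_option autoImplicit false

open Classical

namespace GWT

namespace RWBAux

variable {ι G V : Type*} [Fintype ι] [Group G] [MulAction G V] (C : Code ι G V)

/-- `W w l` depends only on `w 0, …, w l.length` -/
theorem W_congr (w w' : ℕ → G) (l : List ι) (h : ∀ j, j ≤ l.length → w j = w' j) :
    W C w l = W C w' l := by
  induction l with
  | nil => simp only [W]; exact h 0 (Nat.zero_le _)
  | cons s l ih =>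
    simp only [W]
    rw [ih (fun j hj => h j (by simp only [List.length_cons]; omega)),
      h (l.length + 1) (by simp)]

/-- only the last factor changes -/
theorem W_update (w : ℕ → G) (l : List ι) (g : G) :
    W C (Function.update w l.length (w l.length * g)) l = W C w l * g := by
  cases l with
  | nil => simp [W]
  | cons s l =>
    simp only [W, List.length_cons]
    rw [Function.update_self, W_congr C (Function.update w (l.length + 1) (w (l.length + 1) * g)) w
      l (fun j hj => Function.update_of_ne (by omega) _ _)]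
    simp only [mul_assoc]

/-- the words of the letters are different -/
theorem pow_inj (h1 : IN1Stmt C) {s t : ι} (h : C.c s ^ 4 = C.c t ^ 4) : s = t := by
  have key : ∀ s : ι, Bt C.T C.o (C.c s • C.o) (C.c s ^ 4 • C.o) := by
    intro s
    unfold Bt
    have e : C.c s ^ 4 • C.o = C.c s • (C.c s ^ 3 • C.o) := by
      rw [smul_smul, ← pow_succ']
    have h3 := h1.2.2.2 s
    have h0 := C.d1 s
    have h4 := C.d4 s
    unfold Code.d at h3
    rw [h4, e, C.ds, h0, h3]
    ring
  have ks := key s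
  have kt := key t
  rw [← h] at kt
  have e := UNQ C.tree ks kt (by rw [C.d1 s, C.d1 t])
  exact h1.1 s t e

variable {S : Type*} [Fintype S]

theorem wsum_nonneg (n : ℕ) (F : List S → ℝ) (h : ∀ w : List S, w.length = n → 0 ≤ F w) :
    0 ≤ GWP.wsum n F := by
  have := GWP.wsum_le n (fun _ : List S => (0 : ℝ)) F h
  rw [GWP.wsum_const, zero_mul] at this
  exact this

/-- splitting a sum over words along pairwise different words -/
theorem wsum_split (k₀ : ℕ) (wd : ι → List S) (hwd : ∀ s, (wd s).length = k₀)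
    (hinj : ∀ s t, wd s = wd t → s = t) (Φ : List S → ℝ) (K : ℝ)
    (hK : ∀ b : List S, b.length = k₀ → Φ b ≤ K) :
    GWP.wsum k₀ Φ ≤ (∑ x : ι, Φ (wd x)) +
      K * ((Fintype.card S : ℝ) ^ k₀ - (Fintype.card ι : ℝ)) := by
  have hle : GWP.wsum k₀ Φ ≤ GWP.wsum k₀ (fun b : List S =>
      (∑ x : ι, if b = wd x then Φ (wd x) - K else 0) + K) := by
    refine GWP.wsum_le k₀ _ _ (fun b hb => ?_)
    by_cases h : ∃ x, b = wd x
    · obtain ⟨x, rfl⟩ := h
      rw [Finset.sum_eq_single x]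
      · rw [if_pos rfl]
        linarith
      · intro y _ hy
        rw [if_neg]
        intro h
        exact hy (hinj _ _ h).symm
      · intro h; exact absurd (Finset.mem_univ _) h
    · rw [Finset.sum_eq_zero]
      · rw [zero_add]
        exact hK b hb
      · intro x _
        rw [if_neg]
        intro h'
        exact h ⟨x, h'⟩
  refine hle.trans (le_of_eq ?_)
  rw [GWP.wsum_add k₀ (fun b : List S => ∑ x : ι, if b = wd x then Φ (wd x) - K else 0)
    (fun _ => K), GWP.wsum_const, GWP.wsum_finset k₀ Finset.univ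
      (fun (x : ι) (b : List S) => if b = wd x then Φ (wd x) - K else 0)]
  have : ∀ x : ι, GWP.wsum k₀ (fun b : List S => if b = wd x then Φ (wd x) - K else 0) =
      Φ (wd x) - K := by
    intro x
    have := GWP.wsum_indicator (wd x) (Φ (wd x) - K)
    rw [hwd x] at this
    exact this
  rw [Finset.sum_congr rfl (fun x _ => this x), Finset.sum_sub_distrib, Finset.sum_const,
    Finset.card_univ, nsmul_eq_mul]
  ring

/-- there are enough words -/
theorem card_le (k₀ : ℕ) (wd : ι → List S) (hwd : ∀ s, (wd s).length = k₀)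
    (hinj : ∀ s t, wd s = wd t → s = t) :
    (Fintype.card ι : ℝ) ≤ (Fintype.card S : ℝ) ^ k₀ := by
  have h := wsum_nonneg k₀ (fun b : List S => (∑ x : ι, if b = wd x then (-1 : ℝ) else 0) + 1)
    (fun b _ => by
      by_cases h : ∃ x, b = wd x
      · obtain ⟨x, rfl⟩ := h
        rw [Finset.sum_eq_single x]
        · rw [if_pos rfl]
          norm_num
        · intro y _ hy
          rw [if_neg]
          intro h
          exact hy (hinj _ _ h).symm
        · intro h; exact absurd (Finset.mem_univ _) h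
      · rw [Finset.sum_eq_zero]
        · norm_num
        · intro x _
          rw [if_neg]
          intro h'
          exact h ⟨x, h'⟩)
  rw [GWP.wsum_add k₀ (fun b : List S => ∑ x : ι, if b = wd x then (-1 : ℝ) else 0)
    (fun _ => 1), GWP.wsum_const, GWP.wsum_finset k₀ Finset.univ
      (fun (x : ι) (b : List S) => if b = wd x then (-1 : ℝ) else 0)] at h
  have e : ∀ x : ι, GWP.wsum k₀ (fun b : List S => if b = wd x then (-1 : ℝ) else 0) = -1 := by
    intro x
    have := GWP.wsum_indicator (wd x) (-1 : ℝ)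
    rw [hwd x] at this
    exact this
  rw [Finset.sum_congr rfl (fun x _ => e x), Finset.sum_const,
    Finset.card_univ, nsmul_eq_mul] at h
  linarith

/-- the main claim -/
theorem main (h1 : IN1Stmt C) (e : S → G) (wd : ι → List S) (k₀ : ℕ) (F : G → ℝ) (A : ℝ)
    (hwd : ∀ s, (wd s).length = k₀) (hev : ∀ s, GWP.ev e (wd s) = C.c s ^ 4) (hA : 0 ≤ A)
    (hF : ∀ (w : ℕ → G) (m : ℕ), GWP.wsum m (fun l : List ι => F (W C w l)) ≤
      A * (16 * (C.M : ℝ) ^ 3) ^ m) (n : ℕ) :
    ∀ (m : ℕ) (w : ℕ → G), GWP.wsum (k₀ * n) (fun z : List S =>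
      GWP.wsum m (fun l : List ι => F (W C w l * GWP.ev e z))) ≤
      A * (16 * (C.M : ℝ) ^ 3) ^ m *
        ((Fintype.card S : ℝ) ^ k₀ - (C.M : ℝ) ^ 4 + 16 * (C.M : ℝ) ^ 3) ^ n := by
  have hinj : ∀ s t, wd s = wd t → s = t := by
    intro s t h
    refine pow_inj C h1 ?_
    rw [← hev s, ← hev t, h]
  have hcard : (Fintype.card ι : ℝ) = (C.M : ℝ) ^ 4 := by
    rw [C.card]; push_cast; ring
  have hq : (C.M : ℝ) ^ 4 ≤ (Fintype.card S : ℝ) ^ k₀ := by
    rw [← hcard]; exact card_le k₀ wd hwd hinj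
  have hM : (0 : ℝ) ≤ 16 * (C.M : ℝ) ^ 3 := by positivity
  have hB : 0 ≤ (Fintype.card S : ℝ) ^ k₀ - (C.M : ℝ) ^ 4 + 16 * (C.M : ℝ) ^ 3 := by linarith
  induction n with
  | zero =>
    intro m w
    rw [Nat.mul_zero, pow_zero, mul_one]
    have : GWP.wsum 0 (fun z : List S =>
      GWP.wsum m (fun l : List ι => F (W C w l * GWP.ev e z))) =
        GWP.wsum m (fun l : List ι => F (W C w l)) := by
      simp only [GWP.wsum, GWP.ev_nil, mul_one]
    rw [this]
    exact hF w m
  | succ n ih =>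
    intro m w
    set B : ℝ := (Fintype.card S : ℝ) ^ k₀ - (C.M : ℝ) ^ 4 + 16 * (C.M : ℝ) ^ 3 with hBdef
    set Y : ℝ := 16 * (C.M : ℝ) ^ 3 with hY
    rw [show k₀ * (n + 1) = k₀ + k₀ * n by ring, GWP.wsum_append]
    have hK : ∀ b : List S, b.length = k₀ →
        GWP.wsum (k₀ * n) (fun z : List S =>
          GWP.wsum m (fun l : List ι => F (W C w l * GWP.ev e (b ++ z)))) ≤ A * Y ^ m * B ^ n := by
      intro b _
      refine le_trans (le_of_eq ?_) (ih m (Function.update w m (w m * GWP.ev e b)))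
      refine GWP.wsum_congr _ _ _ (fun z _ => GWP.wsum_congr _ _ _ (fun l hl => ?_))
      subst hl
      rw [W_update, GWP.ev_append, mul_assoc]
    refine (wsum_split k₀ wd hwd hinj _ _ hK).trans ?_
    have hX : (∑ x : ι, GWP.wsum (k₀ * n) (fun z : List S =>
          GWP.wsum m (fun l : List ι => F (W C w l * GWP.ev e (wd x ++ z))))) ≤
        A * Y ^ (m + 1) * B ^ n := by
      refine le_trans (le_of_eq ?_) (ih (m + 1) (Function.update w (m + 1) 1))
      rw [← GWP.wsum_finset (k₀ * n) Finset.univ (fun (x : ι) (z : List S) =>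
        GWP.wsum m (fun l : List ι => F (W C w l * GWP.ev e (wd x ++ z))))]
      refine GWP.wsum_congr _ _ _ (fun z _ => ?_)
      simp only [GWP.wsum]
      refine Finset.sum_congr rfl (fun x _ => GWP.wsum_congr _ _ _ (fun l hl => ?_))
      subst hl
      have e1 : W C (Function.update w (l.length + 1) 1) (x :: l) = W C w l * C.c x ^ 4 := by
        simp only [W]
        rw [Function.update_self, mul_one,
          W_congr C (Function.update w (l.length + 1) 1) w l
            (fun j hj => Function.update_of_ne (by omega) _ _)]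
      rw [e1, GWP.ev_append, hev, mul_assoc]
    rw [hcard]
    have e2 : A * Y ^ m * B ^ (n + 1) = A * Y ^ (m + 1) * B ^ n +
        A * Y ^ m * B ^ n * ((Fintype.card S : ℝ) ^ k₀ - (C.M : ℝ) ^ 4) := by
      rw [pow_succ B n, pow_succ Y m]
      have : B = Y + ((Fintype.card S : ℝ) ^ k₀ - (C.M : ℝ) ^ 4) := by rw [hBdef]; ring
      calc A * Y ^ m * (B ^ n * B) = A * Y ^ m * B ^ n * B := by ring
        _ = A * Y ^ m * B ^ n * (Y + ((Fintype.card S : ℝ) ^ k₀ - (C.M : ℝ) ^ 4)) := by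
            rw [← this]
        _ = _ := by ring
    rw [e2]
    linarith

end RWBAux

variable {ι G V : Type*} [Fintype ι] [Group G] [MulAction G V] (C : Code ι G V)

theorem RWB (S : Type*) [Fintype S] (h1 : IN1Stmt C) : RWBStmt C S := by
  intro e wd k₀ F A hk hwd hev hA _ hF r
  have hinj : ∀ s t, wd s = wd t → s = t := by
    intro s t h
    refine RWBAux.pow_inj C h1 ?_
    rw [← hev s, ← hev t, h]
  have hcard : (Fintype.card ι : ℝ) = (C.M : ℝ) ^ 4 := by
    rw [C.card]; push_cast; ring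
  have hq : (C.M : ℝ) ^ 4 ≤ (Fintype.card S : ℝ) ^ k₀ := by
    rw [← hcard]; exact RWBAux.card_le k₀ wd hwd hinj
  have hM32 : (32 : ℝ) ≤ (C.M : ℝ) := by exact_mod_cast C.M_big
  have hM4 : (0 : ℝ) < (C.M : ℝ) ^ 4 := by positivity
  have hqpos : (0 : ℝ) < (Fintype.card S : ℝ) ^ k₀ := lt_of_lt_of_le hM4 hq
  have h16 : 16 * (C.M : ℝ) ^ 3 ≤ (C.M : ℝ) ^ 4 / 2 := by
    have h3 : (0 : ℝ) ≤ (C.M : ℝ) ^ 3 := by positivity
    nlinarith
  have hB0 : 0 ≤ (Fintype.card S : ℝ) ^ k₀ - (C.M : ℝ) ^ 4 + 16 * (C.M : ℝ) ^ 3 := by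
    have : (0 : ℝ) ≤ 16 * (C.M : ℝ) ^ 3 := by positivity
    linarith
  have hB1 : (Fintype.card S : ℝ) ^ k₀ - (C.M : ℝ) ^ 4 + 16 * (C.M : ℝ) ^ 3 ≤
      (Fintype.card S : ℝ) ^ k₀ * (1 - (C.M : ℝ) ^ 4 / 2 / (Fintype.card S : ℝ) ^ k₀) := by
    rw [mul_sub, mul_one, mul_div_cancel₀ _ hqpos.ne']
    linarith
  have hpow : ((Fintype.card S : ℝ) ^ k₀ - (C.M : ℝ) ^ 4 + 16 * (C.M : ℝ) ^ 3) ^ (r / k₀) ≤
      ((Fintype.card S : ℝ) ^ k₀) ^ (r / k₀) *
        (1 - (C.M : ℝ) ^ 4 / 2 / (Fintype.card S : ℝ) ^ k₀) ^ (r / k₀) := by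
    rw [← mul_pow]
    exact pow_le_pow_left₀ hB0 hB1 _
  have hr : r = r % k₀ + k₀ * (r / k₀) := (Nat.mod_add_div r k₀).symm
  calc GWP.wsum r (fun z : List S => F (GWP.ev e z))
      = GWP.wsum (r % k₀ + k₀ * (r / k₀)) (fun z : List S => F (GWP.ev e z)) := by rw [← hr]
    _ = GWP.wsum (r % k₀) (fun v : List S => GWP.wsum (k₀ * (r / k₀))
          (fun z : List S => F (GWP.ev e (v ++ z)))) := GWP.wsum_append _ _ _
    _ ≤ GWP.wsum (r % k₀) (fun _ : List S => A *
          ((Fintype.card S : ℝ) ^ k₀ - (C.M : ℝ) ^ 4 + 16 * (C.M : ℝ) ^ 3) ^ (r / k₀)) := by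
        refine GWP.wsum_le _ _ _ (fun v _ => ?_)
        have := RWBAux.main C h1 e wd k₀ F A hwd hev hA hF (r / k₀) 0 (fun _ => GWP.ev e v)
        rw [pow_zero, mul_one] at this
        refine le_trans (le_of_eq ?_) this
        refine GWP.wsum_congr _ _ _ (fun z _ => ?_)
        simp only [GWP.wsum, W]
        rw [GWP.ev_append]
    _ = A * ((Fintype.card S : ℝ) ^ k₀ - (C.M : ℝ) ^ 4 + 16 * (C.M : ℝ) ^ 3) ^ (r / k₀) *
          (Fintype.card S : ℝ) ^ (r % k₀) := GWP.wsum_const _ _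
    _ ≤ A * (((Fintype.card S : ℝ) ^ k₀) ^ (r / k₀) *
          (1 - (C.M : ℝ) ^ 4 / 2 / (Fintype.card S : ℝ) ^ k₀) ^ (r / k₀)) *
          (Fintype.card S : ℝ) ^ (r % k₀) := by
        refine mul_le_mul_of_nonneg_right (mul_le_mul_of_nonneg_left hpow hA) (by positivity)
    _ = A * (Fintype.card S : ℝ) ^ r *
          (1 - (C.M : ℝ) ^ 4 / 2 / (Fintype.card S : ℝ) ^ k₀) ^ (r / k₀) := by
        have : (Fintype.card S : ℝ) ^ r = (Fintype.card S : ℝ) ^ (r % k₀) *
            ((Fintype.card S : ℝ) ^ k₀) ^ (r / k₀) := by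
          rw [← pow_mul, ← pow_add, ← hr]
        rw [this]
        ring

end GWT
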